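import Pool.Agent.Helper59.SL.GoalsG

/-!
# Project SL, packet SLG PFI + DESC: push-forward is injective; descent to `N`
-/

namespace Pool.Agent.Helper26.SLG.PFIDESC

open Pool.Agent.Helper51.SigLeo Pool.Agent.Helper51.SixExp Pool.Agent.Helper17.SL
  Pool.Agent.Helper59.SL NumberField Module TensorProduct

universe u v w x

theorem um_injective {H : Type v} {H' : Type w} [Field H] [Field H'] (σ : H →+* H') :
    Function.Injective (um σ) := by
  intro a b hab
  have h1 : σ ((a.toMul : (𝓞 H)ˣ) : H) = σ ((b.toMul : (𝓞 H)ˣ) : H) := by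
    rw [← um_apply, ← um_apply, hab]
  have h2 : ((a.toMul : (𝓞 H)ˣ) : H) = ((b.toMul : (𝓞 H)ˣ) : H) := σ.injective h1
  have h3 : a.toMul = b.toMul := Units.ext (RingOfIntegers.ext h2)
  exact Additive.toMul.injective h3

theorem thm_PFI : S_PFI.{u, v, w} := by
  intro A _ _ H H' _ _ σ
  have h := Module.Flat.lTensor_preserves_injective_linearMap (M := A) (um σ).toIntLinearMap
    (um_injective σ)
  exact h

/-- the norm on units -/
noncomputable def nm (N : Type v) (H : Type w) [Field N] [NumberField N] [Field H] [NumberField H]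
    [Algebra N H] : Additive (𝓞 H)ˣ →+ Additive (𝓞 N)ˣ :=
  MonoidHom.toAdditive (Units.map (RingOfIntegers.norm N : 𝓞 H →* 𝓞 N))

theorem sum_unitsHom (N : Type v) (H : Type w) [Field N] [NumberField N] [Field H]
    [NumberField H] [Algebra N H] [IsGalois N H] [Fintype (H ≃ₐ[N] H)]
    (u : Additive (𝓞 H)ˣ) :
    ∑ γ : H ≃ₐ[N] H, unitsHom γ u = um (algebraMap N H) (nm N H u) := by
  apply Additive.toMul.injective
  apply Units.ext
  apply RingOfIntegers.ext
  show (((∑ γ : H ≃ₐ[N] H, unitsHom γ u).toMul : (𝓞 H)ˣ) : H) =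
    (((um (algebraMap N H) (nm N H u)).toMul : (𝓞 H)ˣ) : H)
  rw [um_apply, toMul_sum]
  have h1 : (((nm N H u).toMul : (𝓞 N)ˣ) : N) = Algebra.norm N ((u.toMul : (𝓞 H)ˣ) : H) := rfl
  rw [h1, Algebra.norm_eq_prod_automorphisms, Units.coe_prod]
  rw [map_prod]
  exact Finset.prod_congr (Finset.ext fun _ ↦ by simp) fun γ _ ↦ rfl

theorem thm_DESC : S_DESC.{u, v, w, x} := by
  classical
  intro F N H _ _ _ _ _ _ _ _ _ _ _ _ A _ _ ψ y hy
  have hgal : IsGalois N H := IsGalois.tower_top_of_isGalois F N H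
  have : FiniteDimensional N H := Module.Finite.of_restrictScalars_finite F N H
  have : Fintype (H ≃ₐ[N] H) := Fintype.ofFinite _
  have hfix : ∀ γ : H ≃ₐ[N] H, extEnd (unitsHom γ) y = y := by
    intro γ
    have h1 := hy (γ.restrictScalars F)
    have h2 : AlgEquiv.restrictNormalHom N (γ.restrictScalars F) = 1 := by
      ext a
      apply (algebraMap N H).injective
      have := AlgEquiv.restrictNormal_commutes (γ.restrictScalars F) N a
      show algebraMap N H ((γ.restrictScalars F).restrictNormal N a) = algebraMap N H a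
      rw [this]
      exact γ.commutes a
    simp only [h2, map_one, Units.val_one, one_smul] at h1
    exact h1
  have hsum : ∀ t : A ⊗[ℤ] Additive (𝓞 H)ˣ,
      ∑ γ : H ≃ₐ[N] H, extEnd (unitsHom γ) t = pf A (algebraMap N H) (extM (nm N H) t) := by
    intro t
    induction t using TensorProduct.induction_on with
    | zero => simp
    | tmul a m =>
      simp only [extEnd_tmul, extM_tmul, pf_tmul]
      rw [← TensorProduct.tmul_sum, sum_unitsHom]
    | add s t hs ht =>
      simp only [map_add, Finset.sum_add_distrib, hs, ht]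
  have hcard : ((Fintype.card (H ≃ₐ[N] H) : ℕ) : A) ≠ 0 := by
    exact_mod_cast Fintype.card_ne_zero
  have hy' := hsum y
  rw [Finset.sum_congr rfl fun γ _ ↦ hfix γ, Finset.sum_const, Finset.card_univ,
    ← Nat.cast_smul_eq_nsmul A] at hy'
  let z : A ⊗[ℤ] Additive (𝓞 N)ˣ :=
    ((Fintype.card (H ≃ₐ[N] H) : ℕ) : A)⁻¹ • extM (nm N H) y
  have hz : pf A (algebraMap N H) z = y := by
    show pf A (algebraMap N H) (_ • _) = y
    rw [map_smul, ← hy', smul_smul, inv_mul_cancel₀ hcard, one_smul]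
  refine ⟨z, hz, ?_⟩
  intro g
  apply thm_PFI A N H (algebraMap N H)
  obtain ⟨γ, hγ⟩ := AlgEquiv.restrictNormalHom_surjective (F := F) (K₁ := N) H g
  have h3 : ∀ t : A ⊗[ℤ] Additive (𝓞 N)ˣ, pf A (algebraMap N H) (extEnd (unitsHom g) t) =
      extEnd (unitsHom γ) (pf A (algebraMap N H) t) := by
    intro t
    rw [← pf_eq_extEnd, ← pf_eq_extEnd, pf_pf, pf_pf]
    congr 1
    congr 1
    ext a
    have := AlgEquiv.restrictNormal_commutes γ N a
    show algebraMap N H (g a) = γ (algebraMap N H a)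
    rw [← this, ← hγ]
    rfl
  rw [h3, hz, map_smul, hz, hy γ]
  simp only [hγ]

end Pool.Agent.Helper26.SLG.PFIDESC
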